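import Mathlib

set_option autoImplicit false

namespace Pool.Agent.H620R3.DVec

/-- Matrix mutation in the sign convention of the problem. -/
def mutM (M : Matrix (Fin 4) (Fin 4) ℤ) (k : Fin 4) : Matrix (Fin 4) (Fin 4) ℤ :=
  Matrix.of fun i j =>
    if i = k ∨ j = k then -M i j
    else M i j + Int.sign (M i k) * max (M i k * M k j) 0

/-- Seed mutation over a field `F`. -/
def mu {F : Type} [Field F] (s : (Fin 4 → F) × Matrix (Fin 4) (Fin 4) ℤ) (k : Fin 4) :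
    (Fin 4 → F) × Matrix (Fin 4) (Fin 4) ℤ :=
  (Function.update s.1 k
      ((∏ i, s.1 i ^ (max (s.2 i k) 0).toNat + ∏ i, s.1 i ^ (max (-s.2 i k) 0).toNat) / s.1 k),
    mutM s.2 k)

def B0 : Matrix (Fin 4) (Fin 4) ℤ := !![0, -1, 2, 0; 1, 0, -1, 2; -2, 1, 0, -1; 0, -2, 1, 0]
def B1 : Matrix (Fin 4) (Fin 4) ℤ := !![0, 1, -2, 0; -1, 0, 1, 2; 2, -1, 0, -1; 0, -2, 1, 0]
def B2 : Matrix (Fin 4) (Fin 4) ℤ := !![0, -1, -1, 2; 1, 0, -1, -2; 1, 1, 0, -1; -2, 2, 1, 0]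
def B3 : Matrix (Fin 4) (Fin 4) ℤ := !![0, -1, 1, 1; 1, 0, 1, -3; -1, -1, 0, 1; -1, 3, -1, 0]
def B4 : Matrix (Fin 4) (Fin 4) ℤ := !![0, 1, -1, -1; -1, 0, 2, -2; 1, -2, 0, 1; 1, 2, -1, 0]

theorem m01 : mutM B0 0 = B1 := by decide
theorem m12 : mutM B1 1 = B2 := by decide
theorem m23 : mutM B2 2 = B3 := by decide
theorem m34 : mutM B3 0 = B4 := by decide

variable {F : Type} [Field F]

/-- numerator of the first cluster variable -/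
def N1 {R : Type} [CommRing R] (x0 x1 x2 x3 : R) : R :=
  x0^3*x2^4*x3^6 + x0^2*x1^4*x3 + x0^2*x1^3*x2^2*x3 + 3*x0^2*x1*x2^3*x3^4 + 3*x0^2*x2^5*x3^4 +
  x0*x1^4*x2*x3^2 + 2*x0*x1^3*x2^3*x3^2 + x0*x1^2*x2^5*x3^2 + 3*x0*x1^2*x2^2*x3^2 +
  6*x0*x1*x2^4*x3^2 + 3*x0*x2^6*x3^2 + x1^5 + 3*x1^4*x2^2 + 3*x1^3*x2^4 + x1^3*x2 + x1^2*x2^6 +
  3*x1^2*x2^3 + 3*x1*x2^5 + x2^7

/-- numerator of the second cluster variable -/
def N2 {R : Type} [CommRing R] (x0 x1 x2 x3 : R) : R :=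
  x0^4*x2^2*x3^6 + x0^3*x1^3*x3 + 2*x0^3*x1*x2*x3^4 + x0^3*x2^3*x3^7 + 3*x0^3*x2^3*x3^4 +
  x0^2*x1^3*x2*x3^2 + x0^2*x1^2*x2^3*x3^2 + x0^2*x1^2*x3^2 + 3*x0^2*x1*x2^2*x3^5 +
  4*x0^2*x1*x2^2*x3^2 + 3*x0^2*x2^4*x3^5 + 3*x0^2*x2^4*x3^2 + x0*x1^4 + 2*x0*x1^3*x2^2 +
  x0*x1^2*x2^4 + 3*x0*x1^2*x2*x3^3 + x0*x1^2*x2 + 6*x0*x1*x2^3*x3^3 + 2*x0*x1*x2^3 +
  3*x0*x2^5*x3^3 + x0*x2^5 + x1^3*x3 + 3*x1^2*x2^2*x3 + 3*x1*x2^4*x3 + x2^6*x3

theorem map_N1 {R S : Type} [CommRing R] [CommRing S] (φ : R →+* S) (a b c d : R) :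
    φ (N1 a b c d) = N1 (φ a) (φ b) (φ c) (φ d) := by
  simp only [N1, map_add, map_mul, map_pow, map_ofNat]

theorem map_N2 {R S : Type} [CommRing R] [CommRing S] (φ : R →+* S) (a b c d : R) :
    φ (N2 a b c d) = N2 (φ a) (φ b) (φ c) (φ d) := by
  simp only [N2, map_add, map_mul, map_pow, map_ofNat]

/-- The seed after `0, 1, 2`, and the two last mutations. -/
theorem run (f : Fin 4 → F) (h0 : f 0 ≠ 0) (h1 : f 1 ≠ 0) (h2 : f 2 ≠ 0) (h3 : f 3 ≠ 0)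
    (h : f 1 + f 2 ^ 2 ≠ 0) :
    (([0, 1, 2, 3] : List (Fin 4)).foldl mu (f, B0)).1 3 =
      N1 (f 0) (f 1) (f 2) (f 3) / (f 0 ^ 3 * f 1 ^ 3 * f 2 * f 3) ∧
    (([0, 1, 2, 0, 3] : List (Fin 4)).foldl mu (f, B0)).1 3 =
      N2 (f 0) (f 1) (f 2) (f 3) / (f 0 ^ 3 * f 1 ^ 3 * f 2 * f 3) := by
  have s1 : mu (f, B0) 0 = (Function.update f 0 ((f 1 + f 2 ^ 2) / f 0), B1) := by
    unfold mu
    rw [m01]
    congr 2
    simp [Fin.prod_univ_four, B0]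
  set y0 : F := (f 1 + f 2 ^ 2) / f 0 with hy0
  have hy0' : y0 ≠ 0 := div_ne_zero h h0
  set f1 : Fin 4 → F := Function.update f 0 y0 with hf1
  have e10 : f1 0 = y0 := by simp [hf1]
  have e11 : f1 1 = f 1 := by simp [hf1]
  have e12 : f1 2 = f 2 := by simp [hf1]
  have e13 : f1 3 = f 3 := by simp [hf1]
  have s2 : mu (f1, B1) 1 = (Function.update f1 1 ((y0 + f 2 * f 3 ^ 2) / f 1), B2) := by
    unfold mu
    rw [m12]
    congr 2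
    simp [Fin.prod_univ_four, B1, e10, e11, e12, e13]
  set y1 : F := (y0 + f 2 * f 3 ^ 2) / f 1 with hy1
  set f2 : Fin 4 → F := Function.update f1 1 y1 with hf2
  have e20 : f2 0 = y0 := by simp [hf2, e10]
  have e21 : f2 1 = y1 := by simp [hf2]
  have e22 : f2 2 = f 2 := by simp [hf2, e12]
  have e23 : f2 3 = f 3 := by simp [hf2, e13]
  have s3 : mu (f2, B2) 2 = (Function.update f2 2 ((f 3 + y0 * y1) / f 2), B3) := by
    unfold mu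
    rw [m23]
    congr 2
    simp [Fin.prod_univ_four, B2, e20, e21, e22, e23]
  set y2 : F := (f 3 + y0 * y1) / f 2 with hy2
  set f3 : Fin 4 → F := Function.update f2 2 y2 with hf3
  have e30 : f3 0 = y0 := by simp [hf3, e20]
  have e31 : f3 1 = y1 := by simp [hf3, e21]
  have e32 : f3 2 = y2 := by simp [hf3]
  have e33 : f3 3 = f 3 := by simp [hf3, e23]
  have s4 : (mu (f3, B3) 3).1 3 = (y0 * y2 + y1 ^ 3) / f 3 := by
    unfold mu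
    simp [Fin.prod_univ_four, B3, e30, e31, e32, e33]
  have s5 : mu (f3, B3) 0 = (Function.update f3 0 ((y1 + y2 * f 3) / y0), B4) := by
    unfold mu
    rw [m34]
    congr 2
    simp [Fin.prod_univ_four, B3, e30, e31, e32, e33]
  set y4 : F := (y1 + y2 * f 3) / y0 with hy4
  set f4 : Fin 4 → F := Function.update f3 0 y4 with hf4
  have e40 : f4 0 = y4 := by simp [hf4]
  have e41 : f4 1 = y1 := by simp [hf4, e31]
  have e42 : f4 2 = y2 := by simp [hf4, e32]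
  have e43 : f4 3 = f 3 := by simp [hf4, e33]
  have s6 : (mu (f4, B4) 3).1 3 = (y2 + y4 * y1 ^ 2) / f 3 := by
    unfold mu
    simp [Fin.prod_univ_four, B4, e40, e41, e42, e43]
  have v1 : y1 = (f 0 * f 2 * f 3 ^ 2 + f 1 + f 2 ^ 2) / (f 0 * f 1) := by
    rw [hy1, hy0]
    field_simp
    ring
  have v2 : y2 = (f 0 ^ 2 * f 1 * f 3 + f 0 * f 1 * f 2 * f 3 ^ 2 + f 0 * f 2 ^ 3 * f 3 ^ 2 +
      f 1 ^ 2 + 2 * f 1 * f 2 ^ 2 + f 2 ^ 4) / (f 0 ^ 2 * f 1 * f 2) := by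
    rw [hy2, v1, hy0]
    field_simp
    ring
  have v4 : y4 = (f 0 ^ 2 * f 3 ^ 2 + f 0 * f 2 * f 3 ^ 3 + f 0 * f 2 + f 1 * f 3 +
      f 2 ^ 2 * f 3) / (f 0 * f 1 * f 2) := by
    rw [hy4, div_eq_iff hy0', v1, v2, hy0]
    field_simp
    ring
  constructor
  · simp only [List.foldl_cons, List.foldl_nil]
    rw [s1, s2, s3, s4, v1, v2, hy0]
    unfold N1
    field_simp
    ring
  · simp only [List.foldl_cons, List.foldl_nil]
    rw [s1, s2, s3, s5, s6, v1, v2, v4]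
    unfold N2
    field_simp
    ring

end Pool.Agent.H620R3.DVec
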