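import Mathlib

set_option autoImplicit false

/-!
# The invariant disc for series and parallel composition

For `0 < |q - 1| < 5/27` there is a set `S` of edge weights (`v = y - 1`) containing `-1`, avoiding `-q`
and closed under parallel and series composition.
-/

namespace Pool.Agent.H620R3.SP

open Complex

/-- `S` is a good set of weights for `q`. -/
structure Good (q : ℂ) (S : Set ℂ) : Prop where
  q0 : q ≠ 0
  neg_one : (-1 : ℂ) ∈ S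
  pend : ∀ v ∈ S, q + v ≠ 0
  par : ∀ v ∈ S, ∀ w ∈ S, v + w + v * w ∈ S
  ser0 : ∀ v ∈ S, ∀ w ∈ S, q + v + w ≠ 0
  ser : ∀ v ∈ S, ∀ w ∈ S, v * w / (q + v + w) ∈ S

theorem poly_ineq (ρ m : ℝ) (h0 : 0 ≤ ρ) (h1 : ρ ≤ 5 / 27) (hm : 0 ≤ m) (hm1 : m ≤ 1 + ρ) :
    0 ≤ 36 - 7 * m - 18 * m ^ 2 - 36 * ρ ^ 2 - 729 / 25 * m * ρ ^ 2 := by
  have a1 : m ^ 2 ≤ (1 + ρ) ^ 2 := pow_le_pow_left₀ hm hm1 2
  have a2 : m * ρ ^ 2 ≤ (1 + ρ) * ρ ^ 2 := mul_le_mul_of_nonneg_right hm1 (sq_nonneg ρ)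
  have a3 : ρ ^ 2 ≤ 5 / 27 * ρ := by
    rw [sq]; exact mul_le_mul_of_nonneg_right h1 h0
  have a4 : ρ ^ 3 ≤ 5 / 27 * (5 / 27 * ρ) := by
    calc ρ ^ 3 = ρ * ρ ^ 2 := by ring
      _ ≤ 5 / 27 * (5 / 27 * ρ) := mul_le_mul h1 a3 (sq_nonneg ρ) (by norm_num)
  have a5 : m ^ 2 ≤ 1 + 2 * ρ + ρ ^ 2 := by linarith [a1, show (1 + ρ) ^ 2 = 1 + 2 * ρ + ρ ^ 2 by ring]
  have a6 : m * ρ ^ 2 ≤ ρ ^ 2 + ρ ^ 3 := by
    linarith [a2, show (1 + ρ) * ρ ^ 2 = ρ ^ 2 + ρ ^ 3 by ring]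
  have a7 : 729 / 25 * m * ρ ^ 2 = 729 / 25 * (m * ρ ^ 2) := by ring
  rw [a7]
  linarith

/-- the centre of the invariant disc -/
theorem exists_centre (q : ℂ) (h0 : 0 < ‖q - 1‖) (h1 : ‖q - 1‖ < 5 / 27) :
    ∃ c : ℂ, ‖c‖ ^ 2 = ‖q‖ + (6 / 5 * ‖q - 1‖) ^ 2 ∧ q * (starRingEnd ℂ) c = (‖q‖ : ℂ) * c ∧
      ‖1 - c‖ ≤ (6 / 5 * ‖q - 1‖) / 2 := by
  set ρ : ℝ := ‖q - 1‖ with hρ
  set m : ℝ := ‖q‖ with hm
  have hm1 : m ≤ 1 + ρ := by
    have : ‖q‖ ≤ ‖q - 1‖ + ‖(1 : ℂ)‖ := by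
      have := norm_add_le (q - 1) 1
      simpa using this
    simp at this
    linarith
  have hm0 : 1 - ρ ≤ m := by
    have : ‖(1 : ℂ)‖ ≤ ‖q - 1‖ + ‖q‖ := by
      have h := norm_add_le (1 - q) q
      rw [norm_sub_rev 1 q] at h
      simpa using h
    simp at this
    linarith
  have hmpos : 0 < m := by linarith
  have hre : 2 * q.re = m ^ 2 + 1 - ρ ^ 2 := by
    have e1 : m ^ 2 = q.re ^ 2 + q.im ^ 2 := by
      rw [hm, ← Complex.normSq_eq_norm_sq, Complex.normSq_apply]; ring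
    have e2 : ρ ^ 2 = (q.re - 1) ^ 2 + q.im ^ 2 := by
      rw [hρ, ← Complex.normSq_eq_norm_sq, Complex.normSq_apply]; simp; ring
    rw [e1, e2]; ring
  obtain ⟨s0, hs0⟩ := IsAlgClosed.exists_pow_nat_eq q (n := 2) (by norm_num)
  obtain ⟨s, hs, hsre⟩ : ∃ s : ℂ, s ^ 2 = q ∧ 0 ≤ s.re := by
    rcases le_total 0 s0.re with h | h
    · exact ⟨s0, hs0, h⟩
    · exact ⟨-s0, by rw [neg_sq]; exact hs0, by simpa using h⟩
  have hsn : ‖s‖ ^ 2 = m := by rw [hm, ← hs, norm_pow]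
  have hsre2 : 2 * s.re ^ 2 = m + q.re := by
    have e1 : m = s.re ^ 2 + s.im ^ 2 := by
      rw [← hsn, ← Complex.normSq_eq_norm_sq, Complex.normSq_apply]; ring
    have e2 : q.re = s.re ^ 2 - s.im ^ 2 := by
      rw [← hs, sq, Complex.mul_re]; ring
    rw [e1, e2]; ring
  set t : ℝ := 6 / 5 * ρ with ht
  set κ : ℝ := 1 + t ^ 2 / m with hκ
  have hκ0 : 0 < κ := by positivity
  set T : ℝ := Real.sqrt κ with hT
  have hT2 : T ^ 2 = κ := Real.sq_sqrt hκ0.le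
  have hT0 : 0 ≤ T := Real.sqrt_nonneg _
  set c : ℂ := (T : ℂ) * s with hc
  have hcn : ‖c‖ ^ 2 = m + t ^ 2 := by
    rw [hc, norm_mul, mul_pow, Complex.norm_real, Real.norm_eq_abs, sq_abs, hT2, hsn, hκ]
    field_simp
  have hcs : q * (starRingEnd ℂ) c = (m : ℂ) * c := by
    have e1 : s * (starRingEnd ℂ) s = (m : ℂ) := by
      rw [Complex.mul_conj, Complex.normSq_eq_norm_sq, hsn]
    rw [hc, map_mul, Complex.conj_ofReal]
    calc q * ((T : ℂ) * (starRingEnd ℂ) s) = (T : ℂ) * s * (s * (starRingEnd ℂ) s) := by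
          rw [← hs]; ring
      _ = (m : ℂ) * ((T : ℂ) * s) := by rw [e1]; ring
  refine ⟨c, hcn, hcs, ?_⟩
  have hcre : c.re = T * s.re := by rw [hc]; simp
  have hcre0 : 0 ≤ c.re := by rw [hcre]; positivity
  have hn : ‖1 - c‖ ^ 2 = 1 - 2 * c.re + (m + t ^ 2) := by
    rw [← hcn, ← Complex.normSq_eq_norm_sq, ← Complex.normSq_eq_norm_sq, Complex.normSq_apply,
      Complex.normSq_apply]
    simp
    ring
  -- the main inequality
  have hkey : (1 + m + 3 / 4 * t ^ 2) ^ 2 ≤ (2 * c.re) ^ 2 := by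
    have e1 : (2 * c.re) ^ 2 * m = (m + t ^ 2) * ((m + 1) ^ 2 - ρ ^ 2) := by
      have e2 : (2 * c.re) ^ 2 = 2 * κ * (2 * s.re ^ 2) := by rw [hcre, ← hT2]; ring
      have e3 : κ * m = m + t ^ 2 := by rw [hκ]; field_simp
      calc (2 * c.re) ^ 2 * m = (κ * m) * (2 * (2 * s.re ^ 2)) := by rw [e2]; ring
        _ = (m + t ^ 2) * (2 * m + 2 * q.re) := by rw [e3, hsre2]; ring
        _ = (m + t ^ 2) * ((m + 1) ^ 2 - ρ ^ 2) := by rw [hre]; ring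
    have e4 : 0 ≤ 36 - 7 * m - 18 * m ^ 2 - 36 * ρ ^ 2 - 729 / 25 * m * ρ ^ 2 :=
      poly_ineq ρ m h0.le h1.le hmpos.le hm1
    have e5 : (m + t ^ 2) * ((m + 1) ^ 2 - ρ ^ 2) - (1 + m + 3 / 4 * t ^ 2) ^ 2 * m =
        ρ ^ 2 / 25 * (36 - 7 * m - 18 * m ^ 2 - 36 * ρ ^ 2 - 729 / 25 * m * ρ ^ 2) := by
      rw [ht]; ring
    have e6 : (1 + m + 3 / 4 * t ^ 2) ^ 2 * m ≤ (2 * c.re) ^ 2 * m := by
      rw [e1]
      have : 0 ≤ ρ ^ 2 / 25 * (36 - 7 * m - 18 * m ^ 2 - 36 * ρ ^ 2 - 729 / 25 * m * ρ ^ 2) :=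
        mul_nonneg (by positivity) e4
      linarith
    exact le_of_mul_le_mul_right e6 hmpos
  have hkey2 : 1 + m + 3 / 4 * t ^ 2 ≤ 2 * c.re :=
    le_of_sq_le_sq hkey (by linarith)
  have ht0 : 0 ≤ t / 2 := by positivity
  apply le_of_sq_le_sq _ ht0
  rw [hn]
  have : (t / 2) ^ 2 = t ^ 2 / 4 := by ring
  rw [this]
  linarith

/-- The disc `‖v + c‖ ≤ t` is invariant under `v ↦ q / v`. -/
theorem disc_inv (q c w : ℂ) (t : ℝ) (hc : ‖c‖ ^ 2 = ‖q‖ + t ^ 2)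
    (hqc : q * (starRingEnd ℂ) c = (‖q‖ : ℂ) * c) (hw0 : w ≠ 0) (ht : 0 ≤ t)
    (hw : ‖w + c‖ ≤ t) : ‖q / w + c‖ ≤ t := by
  have hwn : 0 < ‖w‖ := norm_pos_iff.2 hw0
  have e1 : q / w + c = (q + c * w) / w := by field_simp
  rw [e1, norm_div, div_le_iff₀ hwn]
  have h1 : ‖w + c‖ ^ 2 ≤ t ^ 2 := pow_le_pow_left₀ (norm_nonneg _) hw 2
  apply le_of_sq_le_sq _ (by positivity)
  -- squares of norms as real parts
  have n1 : ‖w + c‖ ^ 2 = ‖w‖ ^ 2 + ‖c‖ ^ 2 + 2 * (c * (starRingEnd ℂ) w).re := by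
    rw [← Complex.normSq_eq_norm_sq, ← Complex.normSq_eq_norm_sq, ← Complex.normSq_eq_norm_sq,
      Complex.normSq_apply, Complex.normSq_apply, Complex.normSq_apply]
    simp [Complex.mul_re]
    ring
  have n2 : ‖q + c * w‖ ^ 2 = ‖q‖ ^ 2 + ‖c‖ ^ 2 * ‖w‖ ^ 2 +
      2 * ((q * (starRingEnd ℂ) c) * (starRingEnd ℂ) w).re := by
    rw [← Complex.normSq_eq_norm_sq, ← Complex.normSq_eq_norm_sq, ← Complex.normSq_eq_norm_sq,
      ← Complex.normSq_eq_norm_sq,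
      Complex.normSq_apply, Complex.normSq_apply, Complex.normSq_apply, Complex.normSq_apply]
    simp [Complex.mul_re, Complex.mul_im]
    ring
  have n3 : ((q * (starRingEnd ℂ) c) * (starRingEnd ℂ) w).re =
      ‖q‖ * (c * (starRingEnd ℂ) w).re := by
    rw [hqc, mul_assoc, Complex.re_ofReal_mul]
  rw [n2, n3, mul_pow, hc]
  rw [n1, hc] at h1
  nlinarith [mul_le_mul_of_nonneg_left h1 (norm_nonneg q)]

theorem exists_good (q : ℂ) (h0 : 0 < ‖q - 1‖) (h1 : ‖q - 1‖ < 5 / 27) :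
    ∃ S : Set ℂ, Good q S := by
  obtain ⟨c, hc, hqc, hp⟩ := exists_centre q h0 h1
  set ρ : ℝ := ‖q - 1‖ with hρ
  set t : ℝ := 6 / 5 * ρ with ht
  have ht0 : 0 < t := by positivity
  have ht1 : t < 2 / 9 := by rw [ht]; linarith
  have hq0 : q ≠ 0 := by
    rintro rfl
    rw [hρ] at h1
    simp at h1
    norm_num at h1
  have hqn : 0 < ‖q‖ := norm_pos_iff.2 hq0
  have hcn : t < ‖c‖ := by
    apply lt_of_pow_lt_pow_left₀ 2 (norm_nonneg _)
    rw [hc]; linarith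
  -- elements of the disc are nonzero
  have hne : ∀ v : ℂ, ‖v + c‖ ≤ t → v ≠ 0 := by
    rintro v hv rfl
    rw [zero_add] at hv
    linarith
  -- products
  have hR : ∀ v : ℂ, ‖v + c‖ ≤ t → ‖1 + v‖ ≤ 3 / 2 * t := by
    intro v hv
    have e : (1 : ℂ) + v = (v + c) + (1 - c) := by ring
    rw [e]
    have := norm_add_le (v + c) (1 - c)
    linarith
  have hprod : ∀ v w : ℂ, ‖v + c‖ ≤ t → ‖w + c‖ ≤ t → ‖(1 + v) * (1 + w)‖ ≤ 9 / 4 * t ^ 2 := by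
    intro v w hv hw
    rw [norm_mul]
    calc ‖1 + v‖ * ‖1 + w‖ ≤ (3 / 2 * t) * (3 / 2 * t) :=
          mul_le_mul (hR v hv) (hR w hw) (norm_nonneg _) (by positivity)
      _ = 9 / 4 * t ^ 2 := by ring
  have ht2 : 9 / 4 * t ^ 2 ≤ t / 2 := by nlinarith
  have ht3 : 9 / 4 * t ^ 2 < ρ := by
    have : 9 / 4 * t ^ 2 = 81 / 25 * ρ ^ 2 := by rw [ht]; ring
    rw [this]; nlinarith
  have hdisc : ∀ P : ℂ, ‖P‖ ≤ 9 / 4 * t ^ 2 → ‖(P - 1) + c‖ ≤ t := by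
    intro P hP
    have e : (P - 1) + c = P - (1 - c) := by ring
    rw [e]
    have := norm_sub_le P (1 - c)
    linarith
  have hPq : ∀ P : ℂ, ‖P‖ ≤ 9 / 4 * t ^ 2 → P - 1 ≠ -q := by
    intro P hP h
    have e : P = -(q - 1) := by linear_combination h
    rw [e, norm_neg] at hP
    linarith
  -- Möbius images
  have hmob : ∀ v : ℂ, ‖v + c‖ ≤ t → ‖q / v + c‖ ≤ t := fun v hv =>
    disc_inv q c v t hc hqc (hne v hv) ht0.le hv
  -- series composition: the key computation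
  have hser : ∀ v w : ℂ, ‖v + c‖ ≤ t → v ≠ -q → ‖w + c‖ ≤ t → w ≠ -q →
      q + v + w ≠ 0 ∧ (‖v * w / (q + v + w) + c‖ ≤ t ∧ v * w / (q + v + w) ≠ -q) := by
    intro v w hv hvq hw hwq
    have hv0 := hne v hv
    have hw0 := hne w hw
    set P : ℂ := (1 + q / v) * (1 + q / w) with hP
    have hPn : ‖P‖ ≤ 9 / 4 * t ^ 2 := hprod _ _ (hmob v hv) (hmob w hw)
    have hP1 : P - 1 = q * (q + v + w) / (v * w) := by
      rw [hP]; field_simp; ring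
    have hPd := hdisc P hPn
    have hPne := hne _ hPd
    have hsum : q + v + w ≠ 0 := by
      intro h
      rw [hP1, h] at hPne
      simp at hPne
    have hq' : q / (P - 1) = v * w / (q + v + w) := by
      rw [hP1]; field_simp
    refine ⟨hsum, ?_, ?_⟩
    · rw [← hq']
      exact disc_inv q c (P - 1) t hc hqc hPne ht0.le hPd
    · intro h
      rw [← hq', div_eq_iff hPne] at h
      have h2 : P = 0 := by
        have : q * P = 0 := by linear_combination h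
        rcases mul_eq_zero.1 this with h3 | h3
        · exact absurd h3 hq0
        · exact h3
      rw [hP] at h2
      rcases mul_eq_zero.1 h2 with h3 | h3
      · apply hvq
        have : (1 + q / v) * v = v + q := by field_simp
        rw [h3, zero_mul] at this
        linear_combination -this
      · apply hwq
        have : (1 + q / w) * w = w + q := by field_simp
        rw [h3, zero_mul] at this
        linear_combination -this
  refine ⟨{v | ‖v + c‖ ≤ t ∧ v ≠ -q}, ?_⟩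
  refine ⟨hq0, ⟨?_, ?_⟩, ?_, ?_, ?_, ?_⟩
  · have e : (-1 : ℂ) + c = -(1 - c) := by ring
    rw [e, norm_neg]
    linarith
  · intro h
    have : q = 1 := by linear_combination h
    rw [hρ, this] at h0
    simp at h0
  · rintro v ⟨-, hv⟩ h
    exact hv (by linear_combination h)
  · rintro v ⟨hv, -⟩ w ⟨hw, -⟩
    have e : v + w + v * w = (1 + v) * (1 + w) - 1 := by ring
    rw [e]
    exact ⟨hdisc _ (hprod v w hv hw), hPq _ (hprod v w hv hw)⟩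
  · rintro v ⟨hv, hvq⟩ w ⟨hw, hwq⟩
    exact (hser v w hv hvq hw hwq).1
  · rintro v ⟨hv, hvq⟩ w ⟨hw, hwq⟩
    exact (hser v w hv hvq hw hwq).2

end Pool.Agent.H620R3.SP
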