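import Mathlib
import Pool.Agent.H620R3.SPDisc
import Pool.Agent.Results.MP_8269f7_co.SublinearMaxDegree

set_option autoImplicit false
set_option linter.all false

/-!
# Weighted subgraph expansion and the elimination of vertices of degree at most two
-/

namespace Pool.Agent.H620R3.SP

open SimpleGraph
open Pool.Agent.Results.MP_8269f7_co.SublinearMaxDegree

variable {V : Type}

theorem reach_lift {G1 G2 : SimpleGraph V} (h : ∀ u v, G1.Adj u v → G2.Reachable u v) {u v : V}
    (hr : G1.Reachable u v) : G2.Reachable u v := by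
  obtain ⟨w⟩ := hr
  induction w with
  | nil => exact Reachable.refl _
  | cons hadj _ ih => exact (h _ _ hadj).trans ih

theorem card_cc_congr {G1 G2 : SimpleGraph V} (h12 : ∀ u v, G1.Adj u v → G2.Reachable u v)
    (h21 : ∀ u v, G2.Adj u v → G1.Reachable u v) :
    Nat.card G1.ConnectedComponent = Nat.card G2.ConnectedComponent :=
  Nat.card_congr (Quot.congrRight fun _ _ => ⟨reach_lift h12, reach_lift h21⟩)

theorem isolated_reach {H : SimpleGraph V} {x : V} (hx : ∀ y, ¬ H.Adj x y) {u : V}
    (h : H.Reachable x u) : u = x := by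
  obtain ⟨w⟩ := h
  cases w with
  | nil => rfl
  | cons h _ => exact absurd h (hx _)

theorem card_cc_pendant [Finite V] (H H' : SimpleGraph V) (x a : V) (hxa : x ≠ a)
    (hx : ∀ y, ¬ H.Adj x y)
    (hH' : ∀ u w, H'.Adj u w ↔ (H.Adj u w ∨ (u = x ∧ w = a) ∨ (u = a ∧ w = x))) :
    Nat.card H'.ConnectedComponent + 1 = Nat.card H.ConnectedComponent := by
  classical
  let g : V → V := fun u => if u = x then a else u
  have hg : ∀ u, u ≠ x → g u = u := fun u hu => if_neg hu
  have hgx : g x = a := if_pos rfl
  have hgne : ∀ u, g u ≠ x := by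
    intro u
    by_cases hu : u = x
    · rw [hu, hgx]; exact hxa.symm
    · rw [hg u hu]; exact hu
  have hmono : ∀ u w, H.Reachable u w → H'.Reachable u w := fun u w h =>
    reach_lift (fun u v huv => ((hH' u v).2 (Or.inl huv)).reachable) h
  have hxa' : H'.Reachable x a := ((hH' x a).2 (Or.inr (Or.inl ⟨rfl, rfl⟩))).reachable
  have hgr : ∀ u, H'.Reachable u (g u) := by
    intro u
    by_cases hu : u = x
    · rw [hu, hgx]; exact hxa'
    · rw [hg u hu]
  have hadj : ∀ u w, H'.Adj u w → H.Reachable (g u) (g w) := by
    intro u w h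
    rcases (hH' u w).1 h with h | ⟨rfl, rfl⟩ | ⟨rfl, rfl⟩
    · have hu : u ≠ x := by rintro rfl; exact hx _ h
      have hw : w ≠ x := by rintro rfl; exact hx _ h.symm
      rw [hg u hu, hg w hw]
      exact h.reachable
    · rw [hgx, hg w hxa.symm]
    · rw [hgx, hg u hxa.symm]
  have hlift : ∀ u w, H'.Reachable u w → H.Reachable (g u) (g w) := by
    rintro u w ⟨p⟩
    induction p with
    | nil => exact Reachable.refl _
    | cons h _ ih => exact (hadj _ _ h).trans ih
  let φ : H'.ConnectedComponent → H.ConnectedComponent :=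
    Quot.lift (fun u => H.connectedComponentMk (g u))
      (fun u w h => ConnectedComponent.sound (hlift u w h))
  have hφ : ∀ u, φ (H'.connectedComponentMk u) = H.connectedComponentMk (g u) := fun _ => rfl
  have hinj : Function.Injective φ := by
    intro c d
    induction c using ConnectedComponent.ind with | _ u => ?_
    induction d using ConnectedComponent.ind with | _ w => ?_
    intro h
    rw [hφ, hφ] at h
    have h2 := hmono _ _ (ConnectedComponent.exact h)
    exact ConnectedComponent.sound (((hgr u).trans h2).trans (hgr w).symm)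
  have hrange : Set.range φ = {H.connectedComponentMk x}ᶜ := by
    ext c
    constructor
    · rintro ⟨d, rfl⟩
      induction d using ConnectedComponent.ind with | _ u => ?_
      rw [hφ, Set.mem_compl_iff, Set.mem_singleton_iff]
      intro h
      exact hgne u (isolated_reach hx (ConnectedComponent.exact h).symm)
    · induction c using ConnectedComponent.ind with | _ u => ?_
      intro h
      have hu : u ≠ x := by
        rintro rfl
        exact h rfl
      exact ⟨H'.connectedComponentMk u, by rw [hφ, hg u hu]⟩
  have h1 : (Set.range φ).ncard = Nat.card H'.ConnectedComponent := by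
    rw [← Set.image_univ, Set.ncard_image_of_injective _ hinj, Set.ncard_univ]
  have h2 := Set.ncard_add_ncard_compl ({H.connectedComponentMk x} : Set H.ConnectedComponent)
  rw [Set.ncard_singleton, ← hrange, h1] at h2
  omega

/-- number of components of the spanning subgraph with edge set `A` -/
noncomputable def kc (A : Finset (Sym2 V)) : ℕ :=
  Nat.card (SimpleGraph.fromEdgeSet (↑A : Set (Sym2 V))).ConnectedComponent

variable [Fintype V] [DecidableEq V]

/-- `x` is isolated in `A`. -/
def Iso (A : Finset (Sym2 V)) (x : V) : Prop := ∀ e ∈ A, x ∉ e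

theorem kc_insert (A : Finset (Sym2 V)) (x a : V) (hxa : x ≠ a) (hx : Iso A x) :
    kc (insert s(x, a) A) + 1 = kc A := by
  apply card_cc_pendant _ _ x a hxa
  · intro y h
    rw [fromEdgeSet_adj] at h
    exact hx _ h.1 (Sym2.mem_mk_left _ _)
  · intro u w
    rw [fromEdgeSet_adj, fromEdgeSet_adj]
    constructor
    · rintro ⟨h1, h2⟩
      rw [Finset.coe_insert] at h1
      rcases h1 with h1 | h1
      · rcases Sym2.eq_iff.1 h1 with h | h
        · exact Or.inr (Or.inl h)
        · exact Or.inr (Or.inr h)
      · exact Or.inl ⟨h1, h2⟩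
    · rintro (⟨h1, h2⟩ | ⟨rfl, rfl⟩ | ⟨rfl, rfl⟩)
      · exact ⟨by rw [Finset.coe_insert]; exact Or.inr h1, h2⟩
      · exact ⟨by rw [Finset.coe_insert]; exact Or.inl rfl, hxa⟩
      · refine ⟨by rw [Finset.coe_insert]; exact Or.inl Sym2.eq_swap, hxa.symm⟩

theorem kc_congr (A B : Finset (Sym2 V))
    (h1 : ∀ u w, s(u, w) ∈ A → (fromEdgeSet (↑B : Set (Sym2 V))).Reachable u w)
    (h2 : ∀ u w, s(u, w) ∈ B → (fromEdgeSet (↑A : Set (Sym2 V))).Reachable u w) :
    kc A = kc B := by
  apply card_cc_congr
  · intro u w h
    rw [fromEdgeSet_adj] at h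
    exact h1 u w h.1
  · intro u w h
    rw [fromEdgeSet_adj] at h
    exact h2 u w h.1

theorem reach_of_mem {A : Finset (Sym2 V)} {u w : V} (h : s(u, w) ∈ A) :
    (fromEdgeSet (↑A : Set (Sym2 V))).Reachable u w := by
  by_cases huw : u = w
  · rw [huw]
  · exact Adj.reachable (by rw [fromEdgeSet_adj]; exact ⟨h, huw⟩)

/-- path through `x` versus the edge `ab` -/
theorem kc_two (A : Finset (Sym2 V)) (x a b : V) (hxa : x ≠ a) (hab : a ≠ b) (hxb : x ≠ b)
    (hx : Iso A x) : kc (insert s(x, a) (insert s(x, b) A)) + 1 = kc (insert s(a, b) A) := by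
  have hx' : Iso (insert s(a, b) A) x := by
    intro e he
    rw [Finset.mem_insert] at he
    rcases he with rfl | he
    · rw [Sym2.mem_iff]; tauto
    · exact hx e he
  rw [← kc_insert (insert s(a, b) A) x a hxa hx']
  congr 1
  have m1 : s(x, a) ∈ insert s(x, a) (insert s(x, b) A) := Finset.mem_insert_self _ _
  have m2 : s(x, b) ∈ insert s(x, a) (insert s(x, b) A) :=
    Finset.mem_insert_of_mem (Finset.mem_insert_self _ _)
  have m3 : s(x, a) ∈ insert s(x, a) (insert s(a, b) A) := Finset.mem_insert_self _ _
  have m4 : s(a, b) ∈ insert s(x, a) (insert s(a, b) A) :=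
    Finset.mem_insert_of_mem (Finset.mem_insert_self _ _)
  apply kc_congr
  · intro u w h
    rw [Finset.mem_insert, Finset.mem_insert] at h
    rcases h with h | h | h
    · exact reach_of_mem (by rw [h]; exact m3)
    · have hr := (reach_of_mem m3).trans (reach_of_mem m4)
      rcases Sym2.eq_iff.1 h with ⟨rfl, rfl⟩ | ⟨rfl, rfl⟩
      · exact hr
      · exact hr.symm
    · exact reach_of_mem (Finset.mem_insert_of_mem (Finset.mem_insert_of_mem h))
  · intro u w h
    rw [Finset.mem_insert, Finset.mem_insert] at h
    rcases h with h | h | h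
    · exact reach_of_mem (by rw [h]; exact m1)
    · have hr := (reach_of_mem m1).symm.trans (reach_of_mem m2)
      rcases Sym2.eq_iff.1 h with ⟨rfl, rfl⟩ | ⟨rfl, rfl⟩
      · exact hr
      · exact hr.symm
    · exact reach_of_mem (Finset.mem_insert_of_mem (Finset.mem_insert_of_mem h))

/-- all three edges -/
theorem kc_three (A : Finset (Sym2 V)) (x a b : V) (hxa : x ≠ a) (hab : a ≠ b) (hxb : x ≠ b)
    (hx : Iso A x) :
    kc (insert s(x, a) (insert s(x, b) (insert s(a, b) A))) + 1 = kc (insert s(a, b) A) := by
  have hx' : Iso (insert s(a, b) A) x := by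
    intro e he
    rw [Finset.mem_insert] at he
    rcases he with rfl | he
    · rw [Sym2.mem_iff]; tauto
    · exact hx e he
  have h := kc_two (insert s(a, b) A) x a b hxa hab hxb hx'
  rw [Finset.insert_idem] at h
  exact h

/-- The weighted subgraph expansion. -/
noncomputable def Z (q : ℂ) (v : Sym2 V → ℂ) : ℂ :=
  ∑ A : Finset (Sym2 V), (∏ e ∈ A, v e) * q ^ kc A

theorem sum_three (F : Finset (Sym2 V) → ℂ) (e1 e2 e3 : Sym2 V) (h12 : e1 ≠ e2) (h13 : e1 ≠ e3)
    (h23 : e2 ≠ e3) :
    ∑ A : Finset (Sym2 V), F A =
      ∑ A ∈ (Finset.univ \ {e1, e2, e3} : Finset (Sym2 V)).powerset,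
        (F A + F (insert e3 A) + F (insert e2 A) + F (insert e2 (insert e3 A)) + F (insert e1 A) +
          F (insert e1 (insert e3 A)) + F (insert e1 (insert e2 A)) +
          F (insert e1 (insert e2 (insert e3 A)))) := by
  set S : Finset (Sym2 V) := Finset.univ \ {e1, e2, e3} with hS
  have hu : (Finset.univ : Finset (Finset (Sym2 V))) =
      (insert e1 (insert e2 (insert e3 S))).powerset := by
    rw [← Finset.powerset_univ]
    congr 1
    ext e
    simp [hS]
    tauto
  have n3 : e3 ∉ S := by simp [hS]
  have n2 : e2 ∉ insert e3 S := by simp [hS, h23]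
  have n1 : e1 ∉ insert e2 (insert e3 S) := by simp [hS, h12, h13]
  rw [hu, Finset.sum_powerset_insert n1, Finset.sum_powerset_insert n2,
    Finset.sum_powerset_insert n2, Finset.sum_powerset_insert n3, Finset.sum_powerset_insert n3,
    Finset.sum_powerset_insert n3, Finset.sum_powerset_insert n3]
  simp only [← Finset.sum_add_distrib]
  refine Finset.sum_congr rfl fun A _ => ?_
  ring

/-- Elimination of a vertex of degree two. -/
theorem Z_series (q : ℂ) (v v' : Sym2 V → ℂ) (x a b : V) (hxa : x ≠ a) (hab : a ≠ b) (hxb : x ≠ b)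
    (hv : ∀ e, x ∈ e → e ≠ s(x, a) → e ≠ s(x, b) → v e = 0)
    (h1 : v' s(x, a) = 0) (h2 : v' s(x, b) = 0)
    (h3 : (q + v s(x, a) + v s(x, b)) * v' s(a, b) =
      v s(x, a) * v s(x, b) + (q + v s(x, a) + v s(x, b)) * v s(a, b) +
        v s(x, a) * v s(x, b) * v s(a, b))
    (h4 : ∀ e, e ≠ s(x, a) → e ≠ s(x, b) → e ≠ s(a, b) → v' e = v e) :
    q * Z q v = (q + v s(x, a) + v s(x, b)) * Z q v' := by
  have e12 : s(x, a) ≠ s(x, b) := by
    intro h
    rcases Sym2.eq_iff.1 h with ⟨-, h⟩ | ⟨h, -⟩
    · exact hab h
    · exact hxb h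
  have e13 : s(x, a) ≠ s(a, b) := by
    intro h
    rcases Sym2.eq_iff.1 h with ⟨h, -⟩ | ⟨h, -⟩
    · exact hxa h
    · exact hxb h
  have e23 : s(x, b) ≠ s(a, b) := by
    intro h
    rcases Sym2.eq_iff.1 h with ⟨h, -⟩ | ⟨h, -⟩
    · exact hxa h
    · exact hxb h
  unfold Z
  rw [sum_three _ _ _ _ e12 e13 e23, sum_three _ _ _ _ e12 e13 e23, Finset.mul_sum,
    Finset.mul_sum]
  refine Finset.sum_congr rfl fun A hA => ?_
  rw [Finset.mem_powerset] at hA
  have n1 : s(x, a) ∉ A := fun h => by simpa using hA h
  have n2 : s(x, b) ∉ A := fun h => by simpa using hA h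
  have n3 : s(a, b) ∉ A := fun h => by simpa using hA h
  have n23 : s(x, b) ∉ insert s(a, b) A := by simp [n2, e23]
  have n13 : s(x, a) ∉ insert s(a, b) A := by simp [n1, e13]
  have n12 : s(x, a) ∉ insert s(x, b) A := by simp [n1, e12]
  have n123 : s(x, a) ∉ insert s(x, b) (insert s(a, b) A) := by simp [n1, e12, e13]
  have hprod : ∏ e ∈ A, v' e = ∏ e ∈ A, v e := by
    refine Finset.prod_congr rfl fun e he => h4 e ?_ ?_ ?_
    · rintro rfl; exact n1 he
    · rintro rfl; exact n2 he
    · rintro rfl; exact n3 he
  simp only [Finset.prod_insert n3, Finset.prod_insert n2, Finset.prod_insert n23,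
    Finset.prod_insert n1, Finset.prod_insert n13, Finset.prod_insert n12,
    Finset.prod_insert n123, hprod, h1, h2]
  by_cases hP : ∏ e ∈ A, v e = 0
  · rw [hP]; ring
  · have hiso : Iso A x := by
      intro e he hxe
      apply hP
      apply Finset.prod_eq_zero he
      apply hv e hxe
      · rintro rfl; exact n1 he
      · rintro rfl; exact n2 he
    have hiso' : Iso (insert s(a, b) A) x := by
      intro e he
      rw [Finset.mem_insert] at he
      rcases he with rfl | he
      · rw [Sym2.mem_iff]; tauto
      · exact hiso e he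
    have k1 := kc_insert A x a hxa hiso
    have k2 := kc_insert A x b hxb hiso
    have k3 := kc_two A x a b hxa hab hxb hiso
    have k4 := kc_insert (insert s(a, b) A) x a hxa hiso'
    have k5 := kc_insert (insert s(a, b) A) x b hxb hiso'
    have k6 := kc_three A x a b hxa hab hxb hiso
    have p1 : q * q ^ kc (insert s(x, a) A) = q ^ kc A := by rw [← k1]; ring
    have p2 : q * q ^ kc (insert s(x, b) A) = q ^ kc A := by rw [← k2]; ring
    have p3 : q * q ^ kc (insert s(x, a) (insert s(x, b) A)) = q ^ kc (insert s(a, b) A) := by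
      rw [← k3]; ring
    have p4 : q * q ^ kc (insert s(x, a) (insert s(a, b) A)) = q ^ kc (insert s(a, b) A) := by
      rw [← k4]; ring
    have p5 : q * q ^ kc (insert s(x, b) (insert s(a, b) A)) = q ^ kc (insert s(a, b) A) := by
      rw [← k5]; ring
    have p6 : q * q ^ kc (insert s(x, a) (insert s(x, b) (insert s(a, b) A))) =
        q ^ kc (insert s(a, b) A) := by
      rw [← k6]; ring
    linear_combination (∏ e ∈ A, v e) * v s(x, a) * p1 + (∏ e ∈ A, v e) * v s(x, b) * p2 +
      (∏ e ∈ A, v e) * v s(x, a) * v s(x, b) * p3 +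
      (∏ e ∈ A, v e) * v s(x, a) * v s(a, b) * p4 +
      (∏ e ∈ A, v e) * v s(x, b) * v s(a, b) * p5 +
      (∏ e ∈ A, v e) * v s(x, a) * v s(x, b) * v s(a, b) * p6 -
      (∏ e ∈ A, v e) * q ^ kc (insert s(a, b) A) * h3

/-- Elimination of a vertex of degree one. -/
theorem Z_pendant (q : ℂ) (v v' : Sym2 V → ℂ) (x a : V) (hxa : x ≠ a)
    (hv : ∀ e, x ∈ e → e ≠ s(x, a) → v e = 0)
    (h1 : v' s(x, a) = 0) (h4 : ∀ e, e ≠ s(x, a) → v' e = v e) :
    q * Z q v = (q + v s(x, a)) * Z q v' := by
  unfold Z
  set S : Finset (Sym2 V) := Finset.univ \ {s(x, a)} with hS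
  have n0 : s(x, a) ∉ S := by simp [hS]
  have hu : (Finset.univ : Finset (Finset (Sym2 V))) = (insert s(x, a) S).powerset := by
    rw [← Finset.powerset_univ]
    congr 1
    ext e
    simp [hS]
  rw [hu, Finset.sum_powerset_insert n0, Finset.sum_powerset_insert n0,
    ← Finset.sum_add_distrib, ← Finset.sum_add_distrib, Finset.mul_sum, Finset.mul_sum]
  refine Finset.sum_congr rfl fun A hA => ?_
  rw [Finset.mem_powerset] at hA
  have n1 : s(x, a) ∉ A := fun h => n0 (hA h)
  have hprod : ∏ e ∈ A, v' e = ∏ e ∈ A, v e := by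
    refine Finset.prod_congr rfl fun e he => h4 e ?_
    rintro rfl; exact n1 he
  simp only [Finset.prod_insert n1, hprod, h1]
  by_cases hP : ∏ e ∈ A, v e = 0
  · rw [hP]; ring
  · have hiso : Iso A x := by
      intro e he hxe
      apply hP
      apply Finset.prod_eq_zero he
      apply hv e hxe
      rintro rfl; exact n1 he
    have k1 := kc_insert A x a hxa hiso
    have p1 : q * q ^ kc (insert s(x, a) A) = q ^ kc A := by rw [← k1]; ring
    linear_combination (∏ e ∈ A, v e) * v s(x, a) * p1

/-- The support graph of a weight function. -/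
def supp (v : Sym2 V → ℂ) : SimpleGraph V := fromEdgeSet {e | v e ≠ 0}

theorem supp_adj (v : Sym2 V → ℂ) (u w : V) : (supp v).Adj u w ↔ v s(u, w) ≠ 0 ∧ u ≠ w := by
  unfold supp
  rw [fromEdgeSet_adj]
  rfl

theorem minor_mono {G1 G2 : SimpleGraph V} (h : G1 ≤ G2) (hK : HasK4Minor G1) : HasK4Minor G2 := by
  obtain ⟨f, hc, hd, ha⟩ := hK
  refine ⟨f, fun i => ?_, hd, fun i j hij => ?_⟩
  · refine (hc i).mono ?_
    intro a b hab
    exact h hab
  · obtain ⟨a, hai, b, hbj, hab⟩ := ha i j hij
    exact ⟨a, hai, b, hbj, h hab⟩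

theorem active_mono {G1 G2 : SimpleGraph V} (h : G1 ≤ G2) : active G1 ⊆ active G2 := by
  rintro u ⟨w, hw⟩
  exact ⟨w, h hw⟩

/-- Main induction. -/
theorem Z_ne_zero (q : ℂ) (S : Set ℂ) (hS : Good q S) : ∀ (m : ℕ) (v : Sym2 V → ℂ),
    (active (supp v)).ncard ≤ m → ¬ HasK4Minor (supp v) → (∀ u, v s(u, u) = 0) →
    (∀ e, v e ≠ 0 → v e ∈ S) → Z q v ≠ 0 := by
  intro m
  induction m using Nat.strong_induction_on with
  | _ m ih =>
  intro v hm hK hdiag hvS
  by_cases hact : ∃ a b, (supp v).Adj a b
  · obtain ⟨a0, b0, hab0⟩ := hact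
    obtain ⟨x, ⟨a, hxa'⟩, p, r, hpr⟩ := exists_small (supp v) hK a0 b0 hab0
    have hxa := hxa'.ne
    have hva : v s(x, a) ≠ 0 := ((supp_adj v x a).1 hxa').1
    have hact_x : x ∈ active (supp v) := ⟨a, hxa'⟩
    by_cases hb : ∃ b, b ≠ a ∧ (supp v).Adj x b
    · obtain ⟨b, hba, hxb'⟩ := hb
      have hxb := hxb'.ne
      have hvb : v s(x, b) ≠ 0 := ((supp_adj v x b).1 hxb').1
      have hN : ∀ w, (supp v).Adj x w → w = a ∨ w = b := by
        intro w hw
        rcases hpr a hxa' with h1 | h1 <;> rcases hpr b hxb' with h2 | h2 <;>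
          rcases hpr w hw with h3 | h3
        · exact absurd (h2.trans h1.symm) hba
        · exact absurd (h2.trans h1.symm) hba
        · left; rw [h1, h3]
        · right; rw [h2, h3]
        · right; rw [h2, h3]
        · left; rw [h1, h3]
        · exact absurd (h2.trans h1.symm) hba
        · exact absurd (h2.trans h1.symm) hba
      set D : ℂ := q + v s(x, a) + v s(x, b) with hD
      have hD0 : D ≠ 0 := hS.ser0 _ (hvS _ hva) _ (hvS _ hvb)
      set w : ℂ := v s(x, a) * v s(x, b) / D with hw
      have hwS : w ∈ S := hS.ser _ (hvS _ hva) _ (hvS _ hvb)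
      set t : ℂ := w + v s(a, b) + w * v s(a, b) with ht
      set v' : Sym2 V → ℂ := fun e =>
        if e = s(x, a) then 0 else if e = s(x, b) then 0 else if e = s(a, b) then t else v e with hv'
      have e12 : s(x, b) ≠ s(x, a) := by
        intro h
        rcases Sym2.eq_iff.1 h with ⟨-, h⟩ | ⟨h, -⟩
        · exact hba h
        · exact hxa h
      have e13 : s(a, b) ≠ s(x, a) := by
        intro h
        rcases Sym2.eq_iff.1 h with ⟨h, -⟩ | ⟨-, h⟩
        · exact hxa h.symm
        · exact hxb h.symm
      have e23 : s(a, b) ≠ s(x, b) := by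
        intro h
        rcases Sym2.eq_iff.1 h with ⟨h, -⟩ | ⟨-, h⟩
        · exact hxa h.symm
        · exact hxb h.symm
      have v1 : v' s(x, a) = 0 := by simp [hv']
      have v2 : v' s(x, b) = 0 := by simp [hv']
      have v3 : v' s(a, b) = t := by simp [hv', e13, e23]
      have v4 : ∀ e, e ≠ s(x, a) → e ≠ s(x, b) → e ≠ s(a, b) → v' e = v e := by
        intro e h1 h2 h3
        simp [hv', h1, h2, h3]
      have key : q * Z q v = D * Z q v' := by
        apply Z_series q v v' x a b hxa hba.symm hxb _ v1 v2 _ v4
        · intro e hxe h1 h2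
          induction e using Sym2.ind with | _ u u' => ?_
          rw [Sym2.mem_iff] at hxe
          by_contra hne
          rcases hxe with rfl | rfl
          · by_cases hu : x = u'
            · rw [← hu] at hne; exact hne (hdiag x)
            · rcases hN u' ((supp_adj v x u').2 ⟨hne, hu⟩) with rfl | rfl
              · exact h1 rfl
              · exact h2 rfl
          · by_cases hu : x = u
            · rw [← hu] at hne; exact hne (hdiag x)
            · rw [Sym2.eq_swap] at hne h1 h2
              rcases hN u ((supp_adj v x u).2 ⟨hne, hu⟩) with rfl | rfl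
              · exact h1 rfl
              · exact h2 rfl
        · rw [v3, ← hD, ht]
          have : D * w = v s(x, a) * v s(x, b) := by rw [hw]; field_simp
          linear_combination this + v s(a, b) * this
      -- support of the new weight function
      have hle : supp v' ≤ contract (supp v) x a := by
        intro u u' huu
        rw [supp_adj] at huu
        obtain ⟨h1, h2⟩ := huu
        have hux : ∀ z, v' s(x, z) = 0 := by
          intro z
          by_cases z1 : s(x, z) = s(x, a)
          · rw [z1]; exact v1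
          by_cases z2 : s(x, z) = s(x, b)
          · rw [z2]; exact v2
          have z3 : s(x, z) ≠ s(a, b) := by
            intro h
            rcases Sym2.eq_iff.1 h with ⟨h, -⟩ | ⟨h, -⟩
            · exact hxa h
            · exact hxb h
          rw [v4 _ z1 z2 z3]
          by_contra hne
          by_cases hxz : x = z
          · rw [← hxz] at hne; exact hne (hdiag x)
          · rcases hN z ((supp_adj v x z).2 ⟨hne, hxz⟩) with rfl | rfl
            · exact z1 rfl
            · exact z2 rfl
        have hu : u ≠ x := by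
          rintro rfl; exact h1 (hux _)
        have hu' : u' ≠ x := by
          rintro rfl; rw [Sym2.eq_swap] at h1; exact h1 (hux _)
        refine ⟨h2, hu, hu', ?_⟩
        by_cases h3 : s(u, u') = s(a, b)
        · rcases Sym2.eq_iff.1 h3 with ⟨rfl, rfl⟩ | ⟨rfl, rfl⟩
          · exact Or.inr (Or.inl ⟨rfl, hxb'⟩)
          · exact Or.inr (Or.inr ⟨rfl, hxb'⟩)
        · left
          rw [supp_adj]
          refine ⟨?_, h2⟩
          rw [← v4 _ _ _ h3]
          · exact h1
          · intro h
            rcases Sym2.eq_iff.1 h with ⟨h, -⟩ | ⟨-, h⟩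
            · exact hu h
            · exact hu' h
          · intro h
            rcases Sym2.eq_iff.1 h with ⟨h, -⟩ | ⟨-, h⟩
            · exact hu h
            · exact hu' h
      have hcard : (active (supp v')).ncard < m := by
        have h1 := Set.ncard_le_ncard (active_mono hle) (Set.toFinite _)
        have h2 := active_contract_ncard (supp v) x a hxa'
        omega
      have hZ' : Z q v' ≠ 0 := by
        apply ih _ hcard v' le_rfl
        · intro h
          exact hK (contract_minor (supp v) x a hxa' (minor_mono hle h))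
        · intro u
          by_cases z1 : s(u, u) = s(x, a)
          · rw [z1]; exact v1
          by_cases z2 : s(u, u) = s(x, b)
          · rw [z2]; exact v2
          have z3 : s(u, u) ≠ s(a, b) := by
            intro h
            rcases Sym2.eq_iff.1 h with ⟨h, h'⟩ | ⟨h, h'⟩
            · exact hba (h'.symm.trans h)
            · exact hba (h.symm.trans h')
          rw [v4 _ z1 z2 z3]
          exact hdiag u
        · intro e he
          by_cases z1 : e = s(x, a)
          · rw [z1, v1] at he; exact absurd rfl he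
          by_cases z2 : e = s(x, b)
          · rw [z2, v2] at he; exact absurd rfl he
          by_cases z3 : e = s(a, b)
          · rw [z3, v3]
            by_cases h0 : v s(a, b) = 0
            · rw [ht, h0]; simpa using hwS
            · exact hS.par _ hwS _ (hvS _ h0)
          · rw [v4 e z1 z2 z3] at he ⊢
            exact hvS e he
      intro hZ
      rw [hZ, mul_zero] at key
      rcases mul_eq_zero.1 key.symm with h | h
      · exact hD0 h
      · exact hZ' h
    · push Not at hb
      set v' : Sym2 V → ℂ := fun e => if e = s(x, a) then 0 else v e with hv'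
      have v1 : v' s(x, a) = 0 := by simp [hv']
      have v4 : ∀ e, e ≠ s(x, a) → v' e = v e := by
        intro e h1
        simp [hv', h1]
      have hN : ∀ w, (supp v).Adj x w → w = a := by
        intro w hw
        by_contra h
        exact hb w h hw
      have key : q * Z q v = (q + v s(x, a)) * Z q v' := by
        apply Z_pendant q v v' x a hxa _ v1 v4
        intro e hxe h1
        induction e using Sym2.ind with | _ u u' => ?_
        rw [Sym2.mem_iff] at hxe
        by_contra hne
        rcases hxe with rfl | rfl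
        · by_cases hu : x = u'
          · rw [← hu] at hne; exact hne (hdiag x)
          · have := hN u' ((supp_adj v x u').2 ⟨hne, hu⟩)
            subst this
            exact h1 rfl
        · by_cases hu : x = u
          · rw [← hu] at hne; exact hne (hdiag x)
          · rw [Sym2.eq_swap] at hne h1
            have := hN u ((supp_adj v x u).2 ⟨hne, hu⟩)
            subst this
            exact h1 rfl
      have hle : supp v' ≤ supp v := by
        intro u u' huu
        rw [supp_adj] at huu ⊢
        obtain ⟨h1, h2⟩ := huu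
        refine ⟨?_, h2⟩
        by_cases z1 : s(u, u') = s(x, a)
        · rw [z1]; exact hva
        · rw [← v4 _ z1]; exact h1
      have hcard : (active (supp v')).ncard < m := by
        refine lt_of_lt_of_le (Set.ncard_lt_ncard ⟨active_mono hle, ?_⟩ (Set.toFinite _)) hm
        intro hc
        obtain ⟨z, hz⟩ := hc hact_x
        have hz2 := hN z (hle hz)
        subst hz2
        rw [supp_adj] at hz
        exact hz.1 v1
      have hZ' : Z q v' ≠ 0 := by
        apply ih _ hcard v' le_rfl
        · intro h
          exact hK (minor_mono hle h)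
        · intro u
          by_cases z1 : s(u, u) = s(x, a)
          · rw [z1]; exact v1
          rw [v4 _ z1]
          exact hdiag u
        · intro e he
          by_cases z1 : e = s(x, a)
          · rw [z1, v1] at he; exact absurd rfl he
          · rw [v4 e z1] at he ⊢
            exact hvS e he
      intro hZ
      rw [hZ, mul_zero] at key
      rcases mul_eq_zero.1 key.symm with h | h
      · exact hS.pend _ (hvS _ hva) h
      · exact hZ' h
  · push Not at hact
    have hv0 : ∀ e, v e = 0 := by
      intro e
      induction e using Sym2.ind with | _ u u' => ?_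
      by_cases huu : u = u'
      · rw [huu]; exact hdiag u'
      · by_contra hne
        exact hact u u' ((supp_adj v u u').2 ⟨hne, huu⟩)
    unfold Z
    rw [Finset.sum_eq_single ∅]
    · simpa using pow_ne_zero _ hS.q0
    · intro A _ hA
      obtain ⟨e, he⟩ := Finset.nonempty_iff_ne_empty.2 hA
      rw [Finset.prod_eq_zero he (hv0 e), zero_mul]
    · intro h
      exact absurd (Finset.mem_univ _) h

end Pool.Agent.H620R3.SP
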